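import Pool.Agent.H.MP_1693ff_gtD.MInt2

/-!
# MP_1693ff_gt: when does the set of pairs of i-chord functions have interior points?
-/

open Real Set Filter Topology CI

/-- Let `n ≥ 2` and `i` be real.  The following are equivalent: (a) `i < -1`, or `i = -1` and
`n = 2`; (b) the set of pairs of even `C³` functions on the sphere `S^{n-1}` which are the
`i`-chord functions of a convex body at two distinct interior points has an interior point in the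
`C³` topology; (c) there are even `C³` functions `f₁, f₂`, a unit vector `u₀`, `k` and
`ε, ρ > 0` such that `(f₁, f₂ + g)` is such a pair for every smooth even `g` all of whose
derivatives of order at most `k` are at most `ε` on the sphere and which, if `i ≠ -1`, vanishes
outside the `ρ`-neighbourhoods of `u₀` and `-u₀`. -/
theorem Pool.Agent.Results.MP_1693ff_gt.InteriorPairs.result
    (n : ℕ) (hn : 2 ≤ n) (i : ℝ) :
    List.TFAE [
      i < -1 ∨ (i = -1 ∧ n = 2),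
      ∃ f₁ f₂ : EuclideanSpace ℝ (Fin n) → ℝ, EvC 3 f₁ ∧ EvC 3 f₂ ∧ ∃ δ > 0,
        ∀ g₁ g₂ : EuclideanSpace ℝ (Fin n) → ℝ, EvC 3 g₁ → EvC 3 g₂ →
        (∀ j ≤ 3, ∀ u, ‖u‖ = 1 → ‖iteratedFDeriv ℝ j (fun u => g₁ u - f₁ u) u‖ ≤ δ) →
        (∀ j ≤ 3, ∀ u, ‖u‖ = 1 → ‖iteratedFDeriv ℝ j (fun u => g₂ u - f₂ u) u‖ ≤ δ) →
        IsPair i g₁ g₂,
      ∃ f₁ f₂ : EuclideanSpace ℝ (Fin n) → ℝ, EvC 3 f₁ ∧ EvC 3 f₂ ∧
        ∃ (u₀ : EuclideanSpace ℝ (Fin n)) (k : ℕ) (ε ρ : ℝ), ‖u₀‖ = 1 ∧ 0 < ε ∧ 0 < ρ ∧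
        ∀ g : EuclideanSpace ℝ (Fin n) → ℝ, EvC (⊤ : ℕ∞) g →
        (∀ j ≤ k, ∀ u, ‖u‖ = 1 → ‖iteratedFDeriv ℝ j g u‖ ≤ ε) →
        (i ≠ -1 → ∀ u, ‖u‖ = 1 → ρ ≤ ‖u - u₀‖ → ρ ≤ ‖u + u₀‖ → g u = 0) →
        IsPair i f₁ (fun u => f₂ u + g u)] := by
  tfae_have 1 → 2 := fun h => (interior_iff hn i).2 h
  tfae_have 2 → 3 := by
    rintro ⟨f₁, f₂, h1, h2, δ, hδ, H⟩
    obtain ⟨u₀, hu₀⟩ : ∃ u₀ : EuclideanSpace ℝ (Fin n), ‖u₀‖ = 1 :=
      ⟨EuclideanSpace.single ⟨0, by omega⟩ 1, by simp⟩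
    refine ⟨f₁, f₂, h1, h2, u₀, 3, δ, 1, hu₀, hδ, one_pos, fun g hg hs _ => ?_⟩
    have hg3 : EvC 3 g := ⟨hg.hom, hg.c.of_le (WithTop.coe_le_coe.2 (le_top : (3 : ℕ∞) ≤ ⊤))⟩
    refine H f₁ (fun u => f₂ u + g u) h1 ⟨fun t ht u => ?_, h2.c.add hg3.c⟩ ?_ ?_
    · show f₂ (t • u) + g (t • u) = f₂ u + g u
      rw [h2.hom t ht, hg.hom t ht]
    · intro j _ u _
      have e : (fun u => f₁ u - f₁ u) = fun _ : EuclideanSpace ℝ (Fin n) => (0 : ℝ) := by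
        funext u
        exact sub_self _
      rw [e]
      have e0 : iteratedFDeriv ℝ j (fun _ : EuclideanSpace ℝ (Fin n) => (0 : ℝ)) u = 0 := by
        have := iteratedFDeriv_fun_zero (𝕜 := ℝ) (E := EuclideanSpace ℝ (Fin n)) (F := ℝ) (n := j)
        exact congrFun this u
      rw [e0, norm_zero]
      exact hδ.le
    · intro j hj u hu
      have e : (fun u => f₂ u + g u - f₂ u) = g := by
        funext u
        ring
      rw [e]
      exact hs j hj u hu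
  tfae_have 3 → 1 := by
    rintro ⟨f₁, f₂, h1, h2, u₀, k, ε, ρ, hu₀, hε, hρ, H⟩
    by_contra hc
    push Not at hc
    obtain ⟨c1, c2⟩ := hc
    rcases c1.lt_or_eq with hlt | heq
    · have h12 : EvC 2 f₁ := ⟨h1.hom, h1.c.of_le (by norm_num)⟩
      have h22 : EvC 2 f₂ := ⟨h2.hom, h2.c.of_le (by norm_num)⟩
      obtain ⟨g, hg, hs, hz, hno⟩ := generic hn hlt h12 h22 k hε hρ hu₀
      exact hno (H g hg hs fun _ => hz)
    · have hi : i = -1 := heq.symm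
      subst hi
      have hn3 : 3 ≤ n := by
        have := c2 rfl
        omega
      obtain ⟨g, hg, hs, hno⟩ := generic_one hn3 h1 h2 k hε
      exact hno (H g hg hs fun h => absurd rfl h)
  tfae_finish
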