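import Pool.Agent.H.MP_1693ff_gtC.NFinC
import Pool.Agent.H.MP_1693ff_gtB.GFin

/-!
# MP_1693ff_gt: near-constant pairs of i-chord functions for i < -1, in all dimensions
-/

open Real Set Filter Topology CF CG CH

/-- Let `i < -1` and `C₁, C₂ > 0`.  (a) For every `n ≥ 2` there are `δ, D > 0` such that for all
even `C³` functions `f₁, f₂` on the unit sphere of `ℝⁿ` (given as functions on `ℝⁿ ∖ {0}` which
are constant on lines through `0`) with `|fⱼ - Cⱼ| ≤ δ` and all derivatives of order `1, 2, 3` of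
norm at most `δ` on the sphere, all distances `d ≥ D` and all unit vectors `u` there is a convex
body in `ℝⁿ` with interior points `0` and `d u` whose `i`-chord functions at these points are `f₁`
and `f₂`.  (b) In the plane `C²` is enough: the same for `π`-periodic functions `f₁, f₂` of the
angle with `|fⱼ - Cⱼ|, |fⱼ'|, |fⱼ''| ≤ δ`. -/
theorem Pool.Agent.Results.MP_1693ff_gt.NearConstantPairs.result
    (i : ℝ) (hi : i < -1) (C₁ C₂ : ℝ) (h₁ : 0 < C₁) (h₂ : 0 < C₂) :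
    (∀ n : ℕ, 2 ≤ n → ∃ δ D : ℝ, 0 < δ ∧ 0 < D ∧ ∀ f₁ f₂ : EuclideanSpace ℝ (Fin n) → ℝ,
      NF f₁ C₁ δ → NF f₂ C₂ δ → ∀ d : ℝ, D ≤ d → ∀ u : EuclideanSpace ℝ (Fin n), ‖u‖ = 1 →
      ∃ K, PairE i f₁ f₂ K 0 (d • u)) ∧
    ∃ δ D : ℝ, 0 < δ ∧ 0 < D ∧ ∀ f₁ f₂ : ℝ → ℝ, Near f₁ C₁ δ → Near f₂ C₂ δ →
      ∀ d : ℝ, D ≤ d → ∀ θ₀, ∃ K, PairI i f₁ f₂ K 0 (d • ev θ₀) := by
  refine ⟨fun n hn => ?_, ?_⟩
  · have h := near_all (n := n) hn (e := -i) (by linarith) h₁ h₂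
    rw [neg_neg] at h
    exact h
  · obtain ⟨δ, D, hδ, hD, H⟩ := near_pairs (e := -i) (by linarith) h₁ h₂
    rw [neg_neg] at H
    exact ⟨δ, D, hδ, hD, fun f₁ f₂ n1 n2 d hd => (H f₁ f₂ n1 n2 d hd).1⟩
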