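import Pool.Agent.H.MP_1693ff_gt.FinB

/-!
# MP_1693ff_gt: pairs of (-1)-chord functions of planar convex bodies
-/

open Real Set Filter Topology CF

/-- Let `f₁, f₂` be positive, even functions on the circle of class `C^{2,1}` with
`Rⱼ = fⱼ + fⱼ'' > 0` which are pinched (`Rⱼ(s)⁴ < 2 Rⱼ(t)⁴`) or satisfy `Cond fⱼ θ₀`. Then the
following are equivalent: (i) they are the `(-1)`-chord functions of a planar convex body at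
interior points `p₁`, `p₂ = p₁ + d e(θ₀)` for some `d > 0`; (ii) for all large `d`;
(iii) `R₁(θ₀) = R₂(θ₀)`. -/
theorem Pool.Agent.Results.MP_1693ff_gt.PlanarPairs.result
    (f₁ f₂ : ℝ → ℝ) (h₁ : Smooth f₁) (h₂ : Smooth f₂) (r₁ : ∀ θ, 0 < curv f₁ θ)
    (r₂ : ∀ θ, 0 < curv f₂ θ) (θ₀ : ℝ)
    (c₁ : Cond f₁ θ₀ ∨ ∀ s t, curv f₁ s ^ 4 < 2 * curv f₁ t ^ 4)
    (c₂ : Cond f₂ θ₀ ∨ ∀ s t, curv f₂ s ^ 4 < 2 * curv f₂ t ^ 4) :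
    ((∃ (K : Set Pl) (p₁ p₂ : Pl) (d : ℝ), 0 < d ∧ p₂ = p₁ + d • ev θ₀ ∧ Pair f₁ f₂ K p₁ p₂) ↔
      curv f₁ θ₀ = curv f₂ θ₀) ∧
    ((∃ D : ℝ, 0 < D ∧ ∀ d : ℝ, D ≤ d → ∃ K, Pair f₁ f₂ K 0 (d • ev θ₀)) ↔
      curv f₁ θ₀ = curv f₂ θ₀) := by
  have key : curv f₁ θ₀ = curv f₂ θ₀ →
      ∃ D : ℝ, 0 < D ∧ ∀ d : ℝ, D ≤ d → ∃ K, Pair f₁ f₂ K 0 (d • ev θ₀) := fun hR =>
    partB h₁ h₂ r₁ r₂ hR (adm_cond h₁ r₁ c₁) (adm_cond h₂ r₂ c₂)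
  refine ⟨⟨planar_nec h₁ h₂, fun hR => ?_⟩, ⟨fun h => ?_, key⟩⟩
  · obtain ⟨D, hD, H⟩ := key hR
    obtain ⟨K, hK⟩ := H D le_rfl
    exact ⟨K, 0, D • ev θ₀, D, hD, by rw [zero_add], hK⟩
  · obtain ⟨D, hD, H⟩ := h
    obtain ⟨K, hK⟩ := H D le_rfl
    exact planar_nec h₁ h₂ ⟨K, 0, D • ev θ₀, D, hD, by rw [zero_add], hK⟩
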