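import Pool.Agent.H.MP_1693ff_gtE.OFinB

/-!
# MP_1693ff_gt: pairs near the pair of a smooth body, `i ≤ -1`, all dimensions
-/

open Real Set Filter Topology CF CH CI CJ

/-- Seen from the interior point `p`, the boundary of `K` is of class `C³` with positive curvature:
the inverse `1/ρ` of the radial function of `K - p` (the gauge function of `K - p`) is `C³` off the
origin and its second derivative at `u ≠ 0` is positive in every direction `x` which is not a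
multiple of `u`.  (This does not depend on the choice of `p`.) -/
def Pool.Agent.Results.MP_1693ff_gt.SmoothBodies.SmoothAt {n : ℕ}
    (K : Set (EuclideanSpace ℝ (Fin n))) (p : EuclideanSpace ℝ (Fin n)) : Prop :=
  ContDiffOn ℝ 3 (fun u => (radial K p u)⁻¹) {0}ᶜ ∧
  ∀ u, u ≠ 0 → ∀ x, (∀ c : ℝ, x ≠ c • u) →
    0 < fderiv ℝ (fderiv ℝ fun u => (radial K p u)⁻¹) u x x

/-- Let `n ≥ 2`, `i ≤ -1`, let `K` be a convex body in `ℝⁿ` with boundary of class `C³` and positive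
curvature, and `f₁, f₂` its `i`-chord functions at two distinct interior points `p₁, p₂`.  There is
`δ > 0` such that for all points `q₁, q₂` with `|qⱼ - pⱼ| ≤ δ` and all even `C³` functions
`g₁, g₂` on the unit sphere (given as functions on `ℝⁿ ∖ {0}` which are constant on lines through
`0`) such that all derivatives of `gⱼ - fⱼ` of order at most `3` are at most `δ` on the sphere:
`g₁, g₂` are the `i`-chord functions of some convex body at its interior points `q₁, q₂` if and only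
if `i < -1`, or `i = -1` and `g₁(u) + D²g₁(u)(w, w) = g₂(u) + D²g₂(u)(w, w)` for all unit vectors
`w` orthogonal to `u = (q₂ - q₁)/|q₂ - q₁|`. -/
theorem Pool.Agent.Results.MP_1693ff_gt.SmoothBodies.result
    (n : ℕ) (hn : 2 ≤ n) (i : ℝ) (hi : i ≤ -1)
    (f₁ f₂ : EuclideanSpace ℝ (Fin n) → ℝ) (h₁ : EvC 3 f₁) (h₂ : EvC 3 f₂)
    (K : Set (EuclideanSpace ℝ (Fin n))) (p₁ p₂ p : EuclideanSpace ℝ (Fin n)) (hne : p₁ ≠ p₂)
    (hK : PairE i f₁ f₂ K p₁ p₂) (hp : p ∈ interior K)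
    (hs : Pool.Agent.Results.MP_1693ff_gt.SmoothBodies.SmoothAt K p) :
    ∃ δ > 0, ∀ q₁ q₂ : EuclideanSpace ℝ (Fin n), ‖q₁ - p₁‖ ≤ δ → ‖q₂ - p₂‖ ≤ δ →
      ∀ g₁ g₂ : EuclideanSpace ℝ (Fin n) → ℝ, EvC 3 g₁ → EvC 3 g₂ →
      (∀ j ≤ 3, ∀ u, ‖u‖ = 1 → ‖iteratedFDeriv ℝ j (fun u => g₁ u - f₁ u) u‖ ≤ δ) →
      (∀ j ≤ 3, ∀ u, ‖u‖ = 1 → ‖iteratedFDeriv ℝ j (fun u => g₂ u - f₂ u) u‖ ≤ δ) →
      ((∃ K', PairE i g₁ g₂ K' q₁ q₂) ↔ (i < -1 ∨ i = -1 ∧ ∀ w, ‖w‖ = 1 →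
        inner ℝ w (q₂ - q₁) = (0 : ℝ) → qf g₁ (‖q₂ - q₁‖⁻¹ • (q₂ - q₁)) w =
          qf g₂ (‖q₂ - q₁‖⁻¹ • (q₂ - q₁)) w)) := by
  obtain ⟨δ, hδ, H⟩ := smooth_bodies_mov hn hi h₁ h₂ hne hK hp (s := ⟨hs.1, hs.2⟩)
  refine ⟨δ, hδ, fun q₁ q₂ hq₁ hq₂ g₁ g₂ k₁ k₂ n₁ n₂ => ?_⟩
  rw [H q₁ q₂ hq₁ hq₂ g₁ g₂ k₁ k₂ n₁ n₂]
  constructor
  · intro h
    rcases hi.lt_or_eq with hlt | heq
    · exact Or.inl hlt
    · exact Or.inr ⟨heq, h heq⟩
  · rintro (h | h) h0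
    · exact absurd h0 h.ne
    · exact h.2
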